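import Pool.Agent.Helper35.HG.StC

/-!
Project HG, module PDT: late times.
-/

set_option autoImplicit false

namespace Pool.Agent.Helper28.HG

open Helper35.HG Helper35.HC Helper35.HSF Helper35.MS Helper35.PI Helper35.PI2 Helper32.CL
open scoped ContDiff Manifold Topology ENNReal BigOperators
open MeasureTheory Set Filter

theorem hPDT (hGRC : StGRC) (hRCB : StRCB) (hMNB : StMNB) (hPKB : StPKB) (hI4J : StI4J)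
    (hG8 : StG8) : StPDT := by
  intro n hn N M _ _ _ _ _ _ T F ts κ₀ δ C₀ hd
  have hts := hd.ts0
  have hn2 : (2 : ℝ) ≤ n := by exact_mod_cast hn
  obtain ⟨t₂, C, σ, Λ₀, hP⟩ := hGRC n hn N M T F ts κ₀ δ C₀ hd
  have ht2 := hP.t2
  obtain ⟨C', σ', Λ₁', hC', hσ', hσσ, hΛ', hsm', hrec'⟩ :=
    hRCB n hn N M T F ts κ₀ δ C₀ t₂ C σ Λ₀ hP
  obtain ⟨Λ₁, hΛ₁⟩ : ∃ Λ₁ : ℝ, Λ₁ = max Λ₁' (2 * |κ₀| + 2) := ⟨_, rfl⟩
  have hl1 : Λ₁' ≤ Λ₁ := by rw [hΛ₁]; exact le_max_left _ _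
  have hl2 : 2 * |κ₀| + 2 ≤ Λ₁ := by rw [hΛ₁]; exact le_max_right _ _
  -- the function
  obtain ⟨Y, hY⟩ : ∃ Y : M × ℝ → ℝ, Y = fun z => ‖HH (n := n) F z.1 z.2‖ ^ 2 := ⟨_, rfl⟩
  have hYq : ∀ q t, Y (q, t) = ‖HH (n := n) F q t‖ ^ 2 := by intro q t; rw [hY]
  have hYc : ContinuousOn Y (univ ×ˢ Ioo 0 T) := by
    have h1 := (hI4J n N M (Ioo 0 T) F hd.fl.toIsImmJ).2.1
    rw [hY]
    exact (ContinuousOn.norm h1).pow 2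
  have hmax : ∀ b ∈ Ico ts T, ∃ (q : M) (s : ℝ), s ∈ Icc ts b ∧
      ∀ (p : M) (r : ℝ), r ∈ Icc ts b → Y (p, r) ≤ Y (q, s) := by
    intro b hb
    have hK : IsCompact ((univ : Set M) ×ˢ Icc ts b) := isCompact_univ.prod isCompact_Icc
    have hne : ((univ : Set M) ×ˢ Icc ts b).Nonempty :=
      univ_nonempty.prod (nonempty_Icc.2 hb.1)
    have hsub : ((univ : Set M) ×ˢ Icc ts b) ⊆ univ ×ˢ Ioo 0 T := by
      refine Set.prod_mono_right ?_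
      intro s hs
      exact ⟨lt_of_lt_of_le hts.1 hs.1, lt_of_le_of_lt hs.2 hb.2⟩
    obtain ⟨z, hz, hzm⟩ := hK.exists_isMaxOn hne (hYc.mono hsub)
    refine ⟨z.1, z.2, hz.2, fun p r hr => ?_⟩
    exact hzm (⟨mem_univ _, hr⟩ : ((p, r) : M × ℝ) ∈ (univ : Set M) ×ˢ Icc ts b)
  obtain ⟨qb, tb, htb, hB⟩ := hmax t₂ ⟨ht2.1.le, ht2.2⟩
  obtain ⟨t', ht', ht2', q', hq'⟩ := hd.unb (max (Y (qb, tb)) Λ₁) t₂ ht2.2
  obtain ⟨q₃, t₃, ht₃, hm₃⟩ := hmax t' ⟨(ht2.1.trans ht2').le, ht'.2⟩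
  have hY3 : max (Y (qb, tb)) Λ₁ < Y (q₃, t₃) := by
    refine lt_of_lt_of_le hq' ?_
    rw [← hYq]
    exact hm₃ q' t' ⟨(ht2.1.trans ht2').le, le_rfl⟩
  have h23 : t₂ < t₃ := by
    by_contra hcon
    have h1 := hB q₃ t₃ ⟨ht₃.1, not_lt.1 hcon⟩
    exact absurd (lt_of_le_of_lt (le_max_left _ _) hY3) (not_lt.2 h1)
  have h3T : t₃ < T := lt_of_le_of_lt ht₃.2 ht'.2
  obtain ⟨Λ, hΛ⟩ : ∃ Λ : ℝ, Λ = Y (q₃, t₃) := ⟨_, rfl⟩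
  have hΛ1 : Λ₁ ≤ Λ := by
    rw [hΛ]
    exact (lt_of_le_of_lt (le_max_right _ _) hY3).le
  have hΛpos : 0 < Λ := by
    have := abs_nonneg κ₀
    linarith
  have hsmall : C' * Λ ^ (-σ') ≤ 1 / 2 := hsm' Λ (hl1.trans hΛ1)
  have hz0 : ∀ p, (1 - C' * Λ ^ (-σ')) * Λ ≤ ZT n F p t₃ := by
    refine hrec' t₃ ⟨h23.le, h3T⟩ q₃ Λ (by rw [hΛ, hYq]) (hl1.trans hΛ1) ?_
    intro r hr p
    rw [← hYq, hΛ]
    exact hm₃ p r ⟨hr.1, hr.2.trans ht₃.2⟩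
  have hhalf : Λ / 2 ≤ (1 - C' * Λ ^ (-σ')) * Λ := by
    have : 1 / 2 ≤ 1 - C' * Λ ^ (-σ') := by linarith
    nlinarith
  have hzpos : 0 < (1 - C' * Λ ^ (-σ')) * Λ := by linarith
  have hzk : κ₀ < (1 - C' * Λ ^ (-σ')) * Λ := by
    have := le_abs_self κ₀
    linarith
  obtain ⟨-, hm2⟩ := hMNB n hn N M T F ts κ₀ δ C₀ hd t₃ ⟨ht₃.1, h3T⟩ _ hzpos hzk hz0
  have hYk : ∀ t ∈ Ico t₃ T, ∀ p, κ₀ ≤ ‖HH (n := n) F p t‖ ^ 2 := by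
    intro t ht p
    have h1 := hm2 t ht p
    obtain ⟨G, R, Z, a, w, _, _, _, hθ, _⟩ := hPKB n hn N M T F ts κ₀ δ C₀ hd t
      ⟨ht₃.1.trans ht.1, ht.2⟩ p _ _ _ rfl rfl rfl
    rw [ZT] at h1
    have h2 : 0 ≤ n * (n + 2) / (2 * ((n : ℝ) - 1)) * thN n F p t := by
      apply mul_nonneg _ hθ
      apply div_nonneg
      · positivity
      · linarith
    linarith
  refine ⟨t₃, ht₃.1, hd.fl, hd.T1, ⟨lt_of_lt_of_le hts.1 ht₃.1, h3T⟩, hd.δ0, hd.δ1, hd.Y1,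
    ?_, hd.unb⟩
  intro t ht q L u θ hg
  refine (hd.P t ⟨ht₃.1.trans ht.1, ht.2⟩ q L u θ hg).pp ?_
  have h1 := hg.hH.self_of_nhds.1
  rw [hg.pt] at h1
  have h2 := (hG8 n N _ L u t hg.sol _ _ rfl rfl).2.1
  have h3 : YY (jgg u (0, t)) = ‖HH (n := n) F q t‖ ^ 2 := by
    rw [← h2, h1]
    rfl
  rw [h3]
  exact hYk t ht q

end Pool.Agent.Helper28.HG
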