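import Pool.Agent.Helper35.HG.StA

set_option autoImplicit false

/-!
Project HG, module PIB: from the region to `PinB` and `PinA`.
-/

namespace Pool.Agent.Helper28.HG

open Helper35.HG Helper35.HC Helper35.HSF Helper35.MS Helper35.PI Helper35.PI2 Helper32.CL

/-- the bracket of `P2` -/
private theorem brk (n k K J0 Px x l W : ℝ) (hn : 16 ≤ n) (hk : 0 ≤ k) (hK0 : 0 < K)
    (hK : K ≤ 1 / 4) (hJ : J0 ≤ 1 / 2) (hx : 0 ≤ x) (hV : 0 < J0 + Px) (hPx : Px ≤ x / 4)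
    (hVK : 0 < J0 + K * x) (hl : 0 < l) (hl1 : l ≤ 1)
    (hW : W = (n + 8) * (J0 + K * x) + 5 * (k + 1) * n * (J0 + Px) + n * (J0 + K * x) / (1 + x))
    (h : (4 + 20 * (k + 1) ≤ x ∧ Px ≤ 1 / (20 * (k + 1)) * x) ∨ l ≤ 1 / (10 * (k + 2))) :
    l * W ≤ 3 / 4 * n * (1 + x) := by
  have hn0 : 0 < n := by linarith
  have hx1 : 0 < 1 + x := by linarith
  have a1 : J0 + K * x ≤ 1 / 2 + x / 4 := by
    have := mul_le_mul_of_nonneg_right hK hx
    linarith
  have a2 : (n + 8) * (J0 + K * x) ≤ 3 / 2 * n * (1 / 2 + x / 4) := by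
    calc (n + 8) * (J0 + K * x) ≤ (3 / 2 * n) * (J0 + K * x) :=
          mul_le_mul_of_nonneg_right (by linarith) hVK.le
      _ ≤ 3 / 2 * n * (1 / 2 + x / 4) := mul_le_mul_of_nonneg_left a1 (by positivity)
  have a3 : n * (J0 + K * x) / (1 + x) ≤ n / 2 := by
    rw [div_le_iff₀ hx1]
    have := mul_le_mul_of_nonneg_left a1 hn0.le
    nlinarith
  have hW0 : 0 ≤ W := by
    rw [hW]
    have b1 : 0 ≤ (n + 8) * (J0 + K * x) := mul_nonneg (by linarith) hVK.le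
    have b2 : 0 ≤ 5 * (k + 1) * n * (J0 + Px) := mul_nonneg (by positivity) hV.le
    have b3 : 0 ≤ n * (J0 + K * x) / (1 + x) := div_nonneg (mul_nonneg hn0.le hVK.le) hx1.le
    linarith
  rcases h with ⟨h1, h2⟩ | h1
  · have a4 : (k + 1) * Px ≤ x / 20 := by
      have h3 : (k + 1) * Px ≤ (k + 1) * (1 / (20 * (k + 1)) * x) :=
        mul_le_mul_of_nonneg_left h2 (by linarith)
      have h4 : (k + 1) * (1 / (20 * (k + 1)) * x) = x / 20 := by
        have : k + 1 ≠ 0 := by positivity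
        field_simp
      linarith
    have a5 : 5 * (k + 1) * n * (J0 + Px) ≤ n * (5 * (k + 1) / 2 + x / 4) := by
      have h5 : 5 * (k + 1) * (J0 + Px) ≤ 5 * (k + 1) / 2 + x / 4 := by
        have := mul_le_mul_of_nonneg_left hJ (show (0 : ℝ) ≤ k + 1 by linarith)
        nlinarith
      have := mul_le_mul_of_nonneg_left h5 hn0.le
      linarith
    have a6 : W ≤ 3 / 4 * n * (1 + x) := by
      rw [hW]
      have h6 : n * (5 / 4 + 5 * (k + 1) / 2 + 5 * x / 8) ≤ n * (3 / 4 * (1 + x)) :=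
        mul_le_mul_of_nonneg_left (by linarith) hn0.le
      have h7 : 3 / 2 * n * (1 / 2 + x / 4) + n * (5 * (k + 1) / 2 + x / 4) + n / 2 =
        n * (5 / 4 + 5 * (k + 1) / 2 + 5 * x / 8) := by ring
      linarith
    have a7 : l * W ≤ 1 * W := mul_le_mul_of_nonneg_right hl1 hW0
    linarith
  · have a5 : 5 * (k + 1) * n * (J0 + Px) ≤ n * (5 * (k + 1) / 2 * (1 + x)) := by
      have h5 : J0 + Px ≤ 1 / 2 * (1 + x) := by linarith
      have := mul_le_mul_of_nonneg_left h5 (show (0 : ℝ) ≤ 5 * (k + 1) * n by positivity)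
      linarith
    have a6 : W ≤ 5 / 2 * (k + 2) * (n * (1 + x)) := by
      rw [hW]
      have h6 : 3 / 2 * n * (1 / 2 + x / 4) + n / 2 ≤ 5 / 2 * (n * (1 + x)) := by nlinarith
      have h7 : 5 / 2 * (k + 2) * (n * (1 + x)) =
        5 / 2 * (n * (1 + x)) + n * (5 * (k + 1) / 2 * (1 + x)) := by ring
      linarith
    have a7 : l * W ≤ 1 / (10 * (k + 2)) * (5 / 2 * (k + 2) * (n * (1 + x))) :=
      mul_le_mul h1 a6 hW0 (by positivity)
    have a8 : 1 / (10 * (k + 2)) * (5 / 2 * (k + 2) * (n * (1 + x))) = 1 / 4 * (n * (1 + x)) := by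
      have : k + 2 ≠ 0 := by positivity
      field_simp
      ring
    have a9 : 0 < n * (1 + x) := by positivity
    linarith

/-- the bounds for `T` -/
private theorem tbd (k E J0 Jx Px x l T : ℝ) (hk : 0 ≤ k) (hE : 0 < E) (hJ : J0 ≤ 1 / 2)
    (hx : 0 ≤ x) (hV : 0 < J0 + Px) (hVx : 0 < Jx + Px) (hPx : Px ≤ x / 4)
    (hVK : Jx + Px ≤ 1 / 2 + x / 4) (hl : 0 < l) (hl1 : l ≤ 1) (hT0 : 0 ≤ T)
    (hT : (1 + E) * T ≤ l * (Jx + Px + (k + 1) * (J0 + Px))) :
    T ≤ (k + 2) / 2 * (1 + x) ∧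
    (((4 + 20 * (k + 1) ≤ x ∧ Px ≤ 1 / (20 * (k + 1)) * x) ∨ l ≤ 1 / (10 * (k + 2))) →
      T ≤ 3 / 2 * (1 + x)) := by
  have hT1 : T ≤ l * (Jx + Px + (k + 1) * (J0 + Px)) := by
    have : 0 ≤ E * T := mul_nonneg hE.le hT0
    linarith
  set S : ℝ := Jx + Px + (k + 1) * (J0 + Px) with hS
  have hS0 : 0 ≤ S := by
    rw [hS]
    have := mul_nonneg (show (0 : ℝ) ≤ k + 1 by linarith) hV.le
    linarith
  have hS1 : S ≤ (k + 2) / 2 * (1 + x) := by
    rw [hS]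
    have h5 : J0 + Px ≤ 1 / 2 * (1 + x) := by linarith
    have := mul_le_mul_of_nonneg_left h5 (show (0 : ℝ) ≤ k + 1 by linarith)
    linarith
  have hlS : l * S ≤ S := by
    have := mul_le_mul_of_nonneg_right hl1 hS0
    linarith
  refine ⟨by linarith, ?_⟩
  rintro (⟨h1, h2⟩ | h1)
  · have a4 : (k + 1) * Px ≤ x / 20 := by
      have h3 : (k + 1) * Px ≤ (k + 1) * (1 / (20 * (k + 1)) * x) :=
        mul_le_mul_of_nonneg_left h2 (by linarith)
      have h4 : (k + 1) * (1 / (20 * (k + 1)) * x) = x / 20 := by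
        have : k + 1 ≠ 0 := by positivity
        field_simp
      linarith
    have a5 := mul_le_mul_of_nonneg_left hJ (show (0 : ℝ) ≤ k + 1 by linarith)
    have a6 : S ≤ 1 / 2 + x / 4 + (k + 1) / 2 + x / 20 := by
      rw [hS]
      linarith
    linarith
  · have a7 : l * S ≤ 1 / (10 * (k + 2)) * ((k + 2) / 2 * (1 + x)) :=
      mul_le_mul h1 hS1 hS0 (by positivity)
    have a8 : 1 / (10 * (k + 2)) * ((k + 2) / 2 * (1 + x)) = 1 / 20 * (1 + x) := by
      have : k + 2 ≠ 0 := by positivity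
      field_simp
      ring
    linarith

/-- `p1` -/
private theorem sp1 (n r x T Y θ δ : ℝ) (hn : 16 ≤ n) (hr : 0 < r) (hx : 0 ≤ x) (hY : Y = n ^ 2 * r * (1 + x))
    (hT : T = θ / (n * r)) (h : T ≤ 3 / 2 * (1 + x)) (hδ : δ ≤ 1 / 10) :
    θ ≤ (1 - δ) * (2 * (n - 1) / (n * (n + 2))) * Y := by
  have hn0 : 0 < n := by linarith
  have h1 : θ = n * r * T := by
    rw [hT]
    field_simp
  have h2 : (1 - δ) * (2 * (n - 1) / (n * (n + 2))) * Y =
      n * r * ((1 - δ) * (2 * (n - 1) / (n + 2)) * (1 + x)) := by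
    rw [hY]
    have : n + 2 ≠ 0 := by positivity
    field_simp
  rw [h1, h2]
  apply mul_le_mul_of_nonneg_left _ (by positivity)
  refine le_trans h ?_
  apply mul_le_mul_of_nonneg_right _ (by linarith)
  have h3 : 5 / 3 ≤ 2 * (n - 1) / (n + 2) := by
    rw [le_div_iff₀ (by linarith)]
    linarith
  have h4 : (9 / 10 : ℝ) * (5 / 3) ≤ (1 - δ) * (2 * (n - 1) / (n + 2)) :=
    mul_le_mul (by linarith) h3 (by norm_num) (by linarith)
  linarith

private theorem sp0 (n Y θ : ℝ) (hn : 16 ≤ n) (hY : 0 < Y)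
    (h : θ ≤ (1 - 0) * (2 * (n - 1) / (n * (n + 2))) * Y) : θ ≤ Y := by
  have h1 : 2 * (n - 1) / (n * (n + 2)) ≤ 1 := by
    rw [div_le_one (by positivity)]
    nlinarith
  refine le_trans h ?_
  have h2 := mul_le_mul_of_nonneg_right h1 hY.le
  linarith

theorem hPIB (hPB1 : StPB1) (hPB2 : StPB2) (hPI3 : StPI3) (hSQC : StSQC) : StPIB := by
  intro n N k hN p hp
  have hn16 := hp.n16
  have hn : (16 : ℝ) ≤ n := by exact_mod_cast hn16
  have hn0 : (0 : ℝ) < n := by linarith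
  have hk0 : (0 : ℝ) ≤ k := Nat.cast_nonneg k
  have hE0 := hp.E0
  obtain ⟨δ₃, hδ30, hδ31, hPI3'⟩ := hPI3 n N (by omega) (1 / (n : ℝ)) (by positivity)
    (by rw [div_le_one hn0]; linarith)
  obtain ⟨X₁, hX₁⟩ := hp.oP (1 / (20 * ((k : ℝ) + 1))) (by positivity)
  set X₀ : ℝ := max X₁ (4 + 20 * ((k : ℝ) + 1)) with hX₀
  have hX₀p : 0 < 1 + X₀ := by
    have : 4 + 20 * ((k : ℝ) + 1) ≤ X₀ := le_max_right _ _
    linarith
  set δ : ℝ := min (1 / 10) (min (1 / (4 * (n : ℝ))) δ₃) with hδ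
  have hδpos : 0 < δ := by
    rw [hδ]
    exact lt_min (by norm_num) (lt_min (by positivity) hδ30)
  have hδa : δ ≤ 1 / 10 := min_le_left _ _
  have hδb : δ ≤ 1 / (4 * (n : ℝ)) := le_trans (min_le_right _ _) (min_le_left _ _)
  have hδc : δ ≤ δ₃ := le_trans (min_le_right _ _) (min_le_right _ _)
  refine ⟨δ, 1 / (10 * ((k : ℝ) + 2)), (k : ℝ) + 2, hδpos, by linarith, by positivity,
    by linarith, ?_⟩
  intro R hR
  refine ⟨max 1 (n ^ 2 * R * (1 + X₀)), le_max_left _ _, ?_⟩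
  intro A r L x₀ hA l hl hl1 hreg
  have hr := hA.r0
  obtain ⟨x, hx⟩ : ∃ x : ℝ, x = YY A / (n ^ 2 * r) - 1 := ⟨_, rfl⟩
  obtain ⟨T, hT⟩ : ∃ T : ℝ, T = thA2 A / (n * r) := ⟨_, rfl⟩
  obtain ⟨hx0, hT0, hTT, -, -⟩ := hSQC n N k hN p hp A r L x₀ hA l hl hl1 hreg x T hx hT
  have hY : YY A = n ^ 2 * r * (1 + x) := by
    rw [hx]
    field_simp
    ring
  have hYpos : 0 < YY A := by
    rw [hY]
    positivity
  have hV0 : 0 < p.J 0 + p.P x := hp.V0 0 x le_rfl hx0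
  have hVx : 0 < p.J x + p.P x := hp.V0 x x hx0 le_rfl
  have ht0 := hp.top 0 x le_rfl hx0
  have htx := hp.top x x hx0 le_rfl
  have hKx : p.K * x ≤ x / 4 := by
    have := mul_le_mul_of_nonneg_right hp.K4 hx0
    linarith
  have hPx : p.P x ≤ x / 4 := by linarith
  have hJ0 := hp.J02
  obtain ⟨hTa, hTb⟩ := tbd k p.E (p.J 0) (p.J x) (p.P x) x l T hk0 hE0 hJ0 hx0 hV0 hVx hPx
    (by linarith) hl hl1 hT0 hTT
  obtain ⟨hal, hpb⟩ := hPB1 n N k hN p hp A r L x₀ hA l hl hl1 hreg x hx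
  have hcv := hPB2 n N k hN p hp A r L x₀ hA l hl hl1 hreg
  have core : ((4 + 20 * ((k : ℝ) + 1) ≤ x ∧ p.P x ≤ 1 / (20 * ((k : ℝ) + 1)) * x) ∨
      l ≤ 1 / (10 * ((k : ℝ) + 2))) → ∀ κ₁ : ℝ, PinA n κ₁ δ A := by
    intro hor κ₁
    have hθY : thA2 A ≤ YY A :=
      sp0 n (YY A) (thA2 A) hn hYpos
        (sp1 n r x T (YY A) (thA2 A) 0 hn hr hx0 hY hT (hTb hor) (by norm_num))
    refine ⟨sp1 n r x T (YY A) (thA2 A) δ hn hr hx0 hY hT (hTb hor) hδa,
      hPI3' A hA.sy hYpos hθY hcv δ hδpos hδc, fun _ => ?_⟩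
    refine le_trans hpb ?_
    have hb := brk n k p.K (p.J 0) (p.P x) x l _ hn hk0 hp.K0 hp.K4 hJ0 hx0 hV0 hPx
      (lt_of_lt_of_le hV0 ht0) hl hl1 rfl hor
    have h1 : δ * YY A ≤ r * (n / 4 * (1 + x)) := by
      rw [hY]
      have h2 : δ * (4 * (n : ℝ)) ≤ 1 := by
        rwa [le_div_iff₀ (by positivity)] at hδb
      have h3 : δ * (n ^ 2 * r * (1 + x)) = (δ * (4 * n)) * (r * (n / 4 * (1 + x))) := by ring
      rw [h3]
      have h4 : 0 ≤ r * ((n : ℝ) / 4 * (1 + x)) := by positivity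
      have := mul_le_mul_of_nonneg_right h2 h4
      linarith
    have h5 := mul_le_mul_of_nonneg_left hb hr.le
    have h6 : ∀ W : ℝ, r * (l * W) ≤ r * (3 / 4 * n * (1 + x)) →
        al2 A * (r * (l * W - n * (1 + x))) ≤ -(δ * YY A * al2 A) := by
      intro W hW
      have h7 : r * (l * W - n * (1 + x)) ≤ -(δ * YY A) := by
        have h8 : r * (l * W - n * (1 + x)) = r * (l * W) - r * (n * (1 + x)) := by ring
        rw [h8]
        have h9 : r * (3 / 4 * n * (1 + x)) - r * (n * (1 + x)) = -(r * (n / 4 * (1 + x))) := by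
          ring
        linarith
      have h10 := mul_le_mul_of_nonneg_left h7 hal
      linarith
    exact h6 _ h5
  refine ⟨fun hrR => ⟨?_, fun hκ => ?_⟩, fun hll κ₁ => core (Or.inr hll) κ₁⟩
  · have h1 : thA2 A = n * r * T := by
      rw [hT]
      field_simp
    rw [h1, hY]
    have h2 : (n : ℝ) * r * T ≤ n * r * (((k : ℝ) + 2) / 2 * (1 + x)) :=
      mul_le_mul_of_nonneg_left hTa (by positivity)
    refine le_trans h2 ?_
    have h3 : ((k : ℝ) + 2) * (n ^ 2 * r * (1 + x)) -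
        n * r * (((k : ℝ) + 2) / 2 * (1 + x)) = ((k : ℝ) + 2) * n * r * (1 + x) * (n - 1 / 2) := by
      ring
    have h4 : 0 ≤ ((k : ℝ) + 2) * n * r * (1 + x) * (n - 1 / 2) :=
      mul_nonneg (by positivity) (by linarith)
    linarith
  · apply core
    left
    have h1 : n ^ 2 * R * (1 + X₀) ≤ YY A := le_trans (le_max_right _ _) hκ
    have h2 : X₀ ≤ x := by
      rw [hY] at h1
      have h3 : R * (1 + X₀) ≤ r * (1 + x) := by
        have h4 : (n : ℝ) ^ 2 * (R * (1 + X₀)) ≤ n ^ 2 * (r * (1 + x)) := by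
          rw [← mul_assoc, ← mul_assoc]
          exact h1
        exact le_of_mul_le_mul_left h4 (by positivity)
      have h5 : r * (1 + x) ≤ R * (1 + x) := mul_le_mul_of_nonneg_right hrR (by linarith)
      have h6 := le_of_mul_le_mul_left (le_trans h3 h5) hR
      linarith
    exact ⟨le_trans (le_max_right _ _) h2, hX₁ x (le_trans (le_max_left _ _) h2)⟩

end Pool.Agent.Helper28.HG
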